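import Pool.Agent.helper84.TEX.Spec

namespace Pool.Agent.TEX

open Pool.Agent.TC Pool.Agent.TN Polynomial

noncomputable section

/-- the sets of primes -/
def XEF_A (l : ℕ) {k : ℕ} (n : Fin k → ℕ) (y : Fin k × Fin 4) : Set ℕ :=
  if y.2 = 0 then {p : ℕ | p.Prime ∧ l ∣ p - 1} else if y.2 = 1 then {p : ℕ | p.Prime} else
    {p : ℕ | p.Prime ∧ l ∣ p - 1 ∧ ∀ r : ℕ, 0 < r → (n y.1 + 1) ∣ p ^ r - 1 → (n y.1 + 1) - 1 ≤ r}

/-- the exponents -/
def XEF_e (c : Fin 4) : ℕ := if c = 0 then 3 else if c = 1 then 1 else 2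

theorem XEF (hXIE : XIE_stmt) (hXE1 : XE1_stmt) (hXE2 : XE2_stmt) (hXE3 : XE3_stmt) (hXE6 : XE6_stmt)
    (hXE7 : XE7_stmt) (hXE9 : XE9_stmt) : XEF_stmt := by
  intro l hl k n hn
  obtain ⟨x, hxi, hx⟩ := hXE1 (Fin k × Fin 4) (XEF_A l n) (∑ i, (n i + 1)) (by
    rintro ⟨i, c⟩
    unfold XEF_A
    by_cases h0 : c = 0
    · simp only [h0, if_true]
      exact hXE3 l hl
    · by_cases h1 : c = 1
      · simp only [h0, h1, if_true, if_false]
        exact Nat.infinite_setOf_prime
      · simp only [h0, h1, if_false]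
        exact hXE2 l (n i + 1) hl (hn i).1 (fun e => (hn i).2.2 e.symm))
  have hr : ∀ i, (x (i, 0)).Prime ∧ l ∣ x (i, 0) - 1 := by
    intro i
    have := (hx (i, 0)).1
    unfold XEF_A at this
    simpa using this
  have hs : ∀ i, (x (i, 1)).Prime := by
    intro i
    have := (hx (i, 1)).1
    unfold XEF_A at this
    simpa using this
  have hp : ∀ i (c : Fin 4), c ≠ 0 → c ≠ 1 → (x (i, c)).Prime ∧ l ∣ x (i, c) - 1 ∧
      ∀ r : ℕ, 0 < r → (n i + 1) ∣ x (i, c) ^ r - 1 → (n i + 1) - 1 ≤ r := by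
    intro i c h0 h1
    have := (hx (i, c)).1
    unfold XEF_A at this
    simp only [h0, h1, if_false] at this
    exact this
  have hprime : ∀ y, (x y).Prime := by
    rintro ⟨i, c⟩
    by_cases h0 : c = 0
    · subst h0; exact (hr i).1
    · by_cases h1 : c = 1
      · subst h1; exact hs i
      · exact (hp i c h0 h1).1
  have hB : ∀ i y, n i + 1 ≤ x y := by
    intro i y
    refine le_trans ?_ (hx y).2
    exact Finset.single_le_sum (f := fun i => n i + 1) (fun _ _ => Nat.zero_le _) (Finset.mem_univ i)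
  let M : Fin k × Fin 4 → ℕ := fun y => x y ^ XEF_e y.2
  have hM0 : ∀ y, 0 < M y := fun y => pow_pos (hprime y).pos _
  have hMc : ∀ y y', y ≠ y' → Nat.Coprime (M y) (M y') := by
    intro y y' h
    exact Nat.Coprime.pow _ _ ((Nat.coprime_primes (hprime y) (hprime y')).mpr (fun e => h (hxi e)))
  have h9 : ∀ i i' : Fin k,
      (∃ t : Fin (n i + 1) → ℤ, ∀ f : Fin (n i + 1) → ℤ, (∀ j, ((x (i', 0) : ℕ) : ℤ) ∣ f j - t j) → LocA (x (i', 0)) f) ∧
      (∃ t : Fin (n i + 1) → ℤ, ∀ f : Fin (n i + 1) → ℤ, (∀ j, ((x (i', 0) ^ 3 : ℕ) : ℤ) ∣ f j - t j) →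
        LocB (x (i', 0)) f) ∧
      ∃ t : Fin (n i + 1) → ℤ, ∀ f : Fin (n i + 1) → ℤ, (∀ j, ((x (i', 1) : ℕ) : ℤ) ∣ f j - t j) → LocC (x (i', 1)) f :=
    fun i i' => hXE9 (n i) (x (i', 0)) (x (i', 1)) (by have := (hn i).2.1; omega) (hr i').1 (hs i')
  choose tA hA using fun i i' => (h9 i i').1
  choose tB hB' using fun i => (h9 i i).2.1
  choose tC hC using fun i i' => (h9 i i').2.2
  let t : ∀ i : Fin k, Fin k × Fin 4 → Fin (n i + 1) → ℤ := fun i y =>
    if y.2 = 0 then (if y.1 = i then tB i else tA i y.1) else if y.2 = 1 then tC i y.1 else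
      fun j => if j = 0 then (x y : ℤ) else 0
  choose c hc using fun i => hXE6 (Fin k × Fin 4) (n i + 1) M (t i) hM0 hMc
  refine ⟨∏ y, M y, c, fun i => x (i, 0), fun i => x (i, 1), fun i => x (i, 2), fun i => x (i, 3),
    Finset.prod_pos (fun y _ => hM0 y), ?_, ?_⟩
  · intro i e
    have := hxi e
    simp at this
  intro f hf
  have key : ∀ i y j, (M y : ℤ) ∣ f i j - t i y j := by
    intro i y j
    have h1 : (M y : ℤ) ∣ f i j - c i j := by
      refine dvd_trans ?_ (hf i j)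
      exact_mod_cast Finset.dvd_prod_of_mem M (Finset.mem_univ y)
    have h2 := dvd_add h1 (hc i y j)
    simpa using h2
  have kE : ∀ i (q : Fin 4), q ≠ 0 → q ≠ 1 → EisP l (n i) (f i) (x (i, q)) := by
    intro i q h0 h1
    have h := hXE7 (n i) (x (i, q)) (f i) (hp i q h0 h1).1 (by
      intro j
      have := key i (i, q) j
      simp only [M, XEF_e, t, h0, h1, if_false] at this
      exact_mod_cast this)
    exact ⟨(hp i q h0 h1).1, (hp i q h0 h1).2.1, fun r hr0 hd => by
      have := (hp i q h0 h1).2.2 r hr0 hd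
      omega, h.1, h.2⟩
  refine ⟨⟨fun i => (hr i).1, hs, fun i => (hr i).2, fun i i' => hB i' (i, 0), ?_, ?_, ?_, ?_⟩,
    fun i => ⟨kE i 2 (by decide) (by decide), kE i 3 (by decide) (by decide)⟩⟩
  · intro i
    refine hB' i (f i) ?_
    intro j
    have := key i (i, 0) j
    simp only [M, XEF_e, t, if_true] at this
    exact_mod_cast this
  · intro i i' hne
    refine hA i' i (f i') ?_
    intro j
    have := key i' (i, 0) j
    simp only [M, XEF_e, t, if_true, if_neg hne] at this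
    refine dvd_trans ?_ this
    push_cast
    exact dvd_pow_self _ (by norm_num)
  · intro i
    refine hC i i (f i) ?_
    intro j
    have := key i (i, 1) j
    simp only [M, XEF_e, t, if_true, one_ne_zero, if_false, pow_one] at this
    exact_mod_cast this
  · intro i
    have h := kE i 2 (by decide) (by decide)
    exact hXIE (n i) (f i) (x (i, 2)) h.prime h.dvd h.ndvd

end

end Pool.Agent.TEX
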