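import Pool.Agent.helper84.TEX.Spec

namespace Pool.Agent.TEX

open Pool.Agent.TC Pool.Agent.TN Polynomial

noncomputable section

theorem XT (hXIN : XIN_stmt) (hXFA : XFA_stmt) (hXEF : XEF_stmt) (hXE8 : XE8_stmt) : XT_stmt := by
  intro l hl k n hn
  obtain ⟨N, c, r, s, p, p', hN, hpp, h⟩ := hXEF l hl k n hn
  refine ⟨N, c, p, p', hN, hpp, fun f hf => ?_⟩
  obtain ⟨hL, hE⟩ := h f hf
  refine ⟨fun i => hXE8 (n i) (f i) (hL.irr i), hE, ?_⟩
  intro μ a e npos inj pos lt inf hR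
  exact ⟨hXIN l (Cvs.mk k n μ a e npos inj pos lt inf) f r s hl (fun i => (hn i).2.1) hR hL,
    hXFA l (Cvs.mk k n μ a e npos inj pos lt inf) f r s hl (fun i => (hn i).2.1) hR hL⟩

end

end Pool.Agent.TEX
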