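import Pool.Agent.helper84.TEX.Spec

namespace Pool.Agent.TEX

open Pool.Agent.TC Pool.Agent.TN Polynomial

noncomputable section

/-- `p` is a primitive root modulo `m` -/
def PrimR (m p : ℕ) : Prop := ∀ x : ZMod m, x ≠ 0 → ∃ k : ℕ, (p : ZMod m) ^ k = x

/-- existence of the classes, with primitive roots -/
def XEF2_stmt : Prop := ∀ (l : ℕ), l.Prime → ∀ (k : ℕ) (n : Fin k → ℕ), (∀ i, (n i + 1).Prime ∧ 2 ≤ n i ∧ n i + 1 ≠ l) →
  ∃ (N : ℕ) (c : ∀ i, Fin (n i + 1) → ℤ) (r s p p' : Fin k → ℕ), 0 < N ∧ (∀ i, p i ≠ p' i) ∧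
    (∀ i, n i + 1 < p i ∧ n i + 1 < p' i) ∧ (∀ i, PrimR (n i + 1) (p i) ∧ PrimR (n i + 1) (p' i)) ∧
    ∀ f : ∀ i, Fin (n i + 1) → ℤ, (∀ i j, (N : ℤ) ∣ f i j - c i j) →
      Loc l k n f r s ∧ ∀ i, EisP l (n i) (f i) (p i) ∧ EisP l (n i) (f i) (p' i)

/-- The result of the block, with primitive roots. -/
def XT2_stmt : Prop := ∀ (l : ℕ), l.Prime → ∀ (k : ℕ) (n : Fin k → ℕ), (∀ i, (n i + 1).Prime ∧ 2 ≤ n i ∧ n i + 1 ≠ l) →
  ∃ (N : ℕ) (c : ∀ i, Fin (n i + 1) → ℤ) (p p' : Fin k → ℕ), 0 < N ∧ (∀ i, p i ≠ p' i) ∧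
    (∀ i, n i + 1 < p i ∧ n i + 1 < p' i) ∧ (∀ i, PrimR (n i + 1) (p i) ∧ PrimR (n i + 1) (p' i)) ∧
    ∀ f : ∀ i, Fin (n i + 1) → ℤ, (∀ i j, (N : ℤ) ∣ f i j - c i j) →
      (∀ i, ∃ a : Fin (n i + 1) → Qb, Function.Injective a ∧ Rts (f i) a) ∧
      (∀ i, EisP l (n i) (f i) (p i) ∧ EisP l (n i) (f i) (p' i)) ∧
      ∀ (μ : ∀ i, Fin (n i + 1) → ℕ) (a : ∀ i, Fin (n i + 1) → Qb) (e : Fin k → ℕ) (npos : ∀ i, 0 < n i)
        (inj : ∀ i, Function.Injective (a i)) (pos : ∀ i j, 0 < μ i j) (lt : ∀ i j, μ i j < l)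
        (inf : ∀ i, ¬ l ∣ ∑ j, μ i j), (∀ i, Rts (f i) (a i)) →
        (Cvs.mk k n μ a e npos inj pos lt inf).Indep ∧ (Cvs.mk k n μ a e npos inj pos lt inf).Sep

/-- a prime `p > m` with `m - 1 ≤ r` whenever `m ∣ p^r - 1` is a primitive root modulo the prime `m` -/
theorem XT2_prim (m p : ℕ) (hm : m.Prime) (hp : p.Prime) (hmp : m < p)
    (h : ∀ r : ℕ, 0 < r → m ∣ p ^ r - 1 → m - 1 ≤ r) : PrimR m p := by
  haveI : Fact m.Prime := ⟨hm⟩
  intro x hx
  have hp0 : (p : ZMod m) ≠ 0 := by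
    intro h0
    rw [ZMod.natCast_eq_zero_iff] at h0
    rcases (Nat.dvd_prime hp).mp h0 with h1 | h1
    · exact hm.one_lt.ne' h1
    · omega
  let u : (ZMod m)ˣ := Units.mk0 (p : ZMod m) hp0
  have hord : orderOf u = Fintype.card (ZMod m)ˣ := by
    apply le_antisymm (orderOf_le_card_univ)
    rw [ZMod.card_units_eq_totient, Nat.totient_prime hm]
    apply h _ (orderOf_pos u)
    have h1 : u ^ orderOf u = 1 := pow_orderOf_eq_one u
    have h2 : (p : ZMod m) ^ orderOf u = 1 := by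
      have h3 : ((u ^ orderOf u : (ZMod m)ˣ) : ZMod m) = ((1 : (ZMod m)ˣ) : ZMod m) := by rw [h1]
      rw [Units.val_pow_eq_pow_val, Units.val_one] at h3
      exact h3
    rw [← ZMod.natCast_eq_zero_iff, Nat.cast_sub (Nat.one_le_pow _ _ hp.pos)]
    push_cast
    rw [h2, sub_self]
  have hz : Subgroup.zpowers u = ⊤ := by
    apply Subgroup.eq_top_of_card_eq
    rw [Nat.card_zpowers, hord, Nat.card_eq_fintype_card]
  have hmem : Units.mk0 x hx ∈ Subgroup.zpowers u := by rw [hz]; exact Subgroup.mem_top _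
  have hmem2 : Units.mk0 x hx ∈ Submonoid.powers u := by
    rw [mem_powers_iff_mem_zpowers]; exact hmem
  obtain ⟨k, hk⟩ := hmem2
  refine ⟨k, ?_⟩
  have := congrArg (fun v : (ZMod m)ˣ => (v : ZMod m)) hk
  simpa [u] using this

/-- the sets of primes -/
def XEF2_A (l : ℕ) {k : ℕ} (n : Fin k → ℕ) (y : Fin k × Fin 4) : Set ℕ :=
  if y.2 = 0 then {p : ℕ | p.Prime ∧ l ∣ p - 1} else if y.2 = 1 then {p : ℕ | p.Prime} else
    {p : ℕ | p.Prime ∧ l ∣ p - 1 ∧ ∀ r : ℕ, 0 < r → (n y.1 + 1) ∣ p ^ r - 1 → (n y.1 + 1) - 1 ≤ r}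

/-- the exponents -/
def XEF2_e (c : Fin 4) : ℕ := if c = 0 then 3 else if c = 1 then 1 else 2

theorem XEF2 (hXIE : XIE_stmt) (hXE1 : XE1_stmt) (hXE2 : XE2_stmt) (hXE3 : XE3_stmt) (hXE6 : XE6_stmt)
    (hXE7 : XE7_stmt) (hXE9 : XE9_stmt) : XEF2_stmt := by
  intro l hl k n hn
  obtain ⟨x, hxi, hx⟩ := hXE1 (Fin k × Fin 4) (XEF2_A l n) (∑ i, (n i + 1) + 1) (by
    rintro ⟨i, c⟩
    unfold XEF2_A
    by_cases h0 : c = 0
    · simp only [h0, if_true]
      exact hXE3 l hl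
    · by_cases h1 : c = 1
      · simp only [h0, h1, if_true, if_false]
        exact Nat.infinite_setOf_prime
      · simp only [h0, h1, if_false]
        exact hXE2 l (n i + 1) hl (hn i).1 (fun e => (hn i).2.2 e.symm))
  have hr : ∀ i, (x (i, 0)).Prime ∧ l ∣ x (i, 0) - 1 := by
    intro i
    have := (hx (i, 0)).1
    unfold XEF2_A at this
    simpa using this
  have hs : ∀ i, (x (i, 1)).Prime := by
    intro i
    have := (hx (i, 1)).1
    unfold XEF2_A at this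
    simpa using this
  have hp : ∀ i (c : Fin 4), c ≠ 0 → c ≠ 1 → (x (i, c)).Prime ∧ l ∣ x (i, c) - 1 ∧
      ∀ r : ℕ, 0 < r → (n i + 1) ∣ x (i, c) ^ r - 1 → (n i + 1) - 1 ≤ r := by
    intro i c h0 h1
    have := (hx (i, c)).1
    unfold XEF2_A at this
    simp only [h0, h1, if_false] at this
    exact this
  have hprime : ∀ y, (x y).Prime := by
    rintro ⟨i, c⟩
    by_cases h0 : c = 0
    · subst h0; exact (hr i).1
    · by_cases h1 : c = 1
      · subst h1; exact hs i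
      · exact (hp i c h0 h1).1
  have hBB : ∀ i y, n i + 1 < x y := by
    intro i y
    refine lt_of_lt_of_le ?_ (hx y).2
    have := Finset.single_le_sum (f := fun i => n i + 1) (fun _ _ => Nat.zero_le _) (Finset.mem_univ i)
    omega
  have hB : ∀ i y, n i + 1 ≤ x y := fun i y => (hBB i y).le
  let M : Fin k × Fin 4 → ℕ := fun y => x y ^ XEF2_e y.2
  have hM0 : ∀ y, 0 < M y := fun y => pow_pos (hprime y).pos _
  have hMc : ∀ y y', y ≠ y' → Nat.Coprime (M y) (M y') := by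
    intro y y' h
    exact Nat.Coprime.pow _ _ ((Nat.coprime_primes (hprime y) (hprime y')).mpr (fun e => h (hxi e)))
  have h9 : ∀ i i' : Fin k,
      (∃ t : Fin (n i + 1) → ℤ, ∀ f : Fin (n i + 1) → ℤ, (∀ j, ((x (i', 0) : ℕ) : ℤ) ∣ f j - t j) → LocA (x (i', 0)) f) ∧
      (∃ t : Fin (n i + 1) → ℤ, ∀ f : Fin (n i + 1) → ℤ, (∀ j, ((x (i', 0) ^ 3 : ℕ) : ℤ) ∣ f j - t j) →
        LocB (x (i', 0)) f) ∧
      ∃ t : Fin (n i + 1) → ℤ, ∀ f : Fin (n i + 1) → ℤ, (∀ j, ((x (i', 1) : ℕ) : ℤ) ∣ f j - t j) → LocC (x (i', 1)) f :=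
    fun i i' => hXE9 (n i) (x (i', 0)) (x (i', 1)) (by have := (hn i).2.1; omega) (hr i').1 (hs i')
  choose tA hA using fun i i' => (h9 i i').1
  choose tB hB' using fun i => (h9 i i).2.1
  choose tC hC using fun i i' => (h9 i i').2.2
  let t : ∀ i : Fin k, Fin k × Fin 4 → Fin (n i + 1) → ℤ := fun i y =>
    if y.2 = 0 then (if y.1 = i then tB i else tA i y.1) else if y.2 = 1 then tC i y.1 else
      fun j => if j = 0 then (x y : ℤ) else 0
  choose c hc using fun i => hXE6 (Fin k × Fin 4) (n i + 1) M (t i) hM0 hMc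
  refine ⟨∏ y, M y, c, fun i => x (i, 0), fun i => x (i, 1), fun i => x (i, 2), fun i => x (i, 3),
    Finset.prod_pos (fun y _ => hM0 y), ?_, fun i => ⟨hBB i _, hBB i _⟩, ?_, ?_⟩
  · intro i e
    have := hxi e
    simp at this
  · intro i
    exact ⟨XT2_prim _ _ (hn i).1 (hprime _) (hBB i _) (hp i 2 (by decide) (by decide)).2.2,
      XT2_prim _ _ (hn i).1 (hprime _) (hBB i _) (hp i 3 (by decide) (by decide)).2.2⟩
  intro f hf
  have key : ∀ i y j, (M y : ℤ) ∣ f i j - t i y j := by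
    intro i y j
    have h1 : (M y : ℤ) ∣ f i j - c i j := by
      refine dvd_trans ?_ (hf i j)
      exact_mod_cast Finset.dvd_prod_of_mem M (Finset.mem_univ y)
    have h2 := dvd_add h1 (hc i y j)
    simpa using h2
  have kE : ∀ i (q : Fin 4), q ≠ 0 → q ≠ 1 → EisP l (n i) (f i) (x (i, q)) := by
    intro i q h0 h1
    have h := hXE7 (n i) (x (i, q)) (f i) (hp i q h0 h1).1 (by
      intro j
      have := key i (i, q) j
      simp only [M, XEF2_e, t, h0, h1, if_false] at this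
      exact_mod_cast this)
    exact ⟨(hp i q h0 h1).1, (hp i q h0 h1).2.1, fun r hr0 hd => by
      have := (hp i q h0 h1).2.2 r hr0 hd
      omega, h.1, h.2⟩
  refine ⟨⟨fun i => (hr i).1, hs, fun i => (hr i).2, fun i i' => hB i' (i, 0), ?_, ?_, ?_, ?_⟩,
    fun i => ⟨kE i 2 (by decide) (by decide), kE i 3 (by decide) (by decide)⟩⟩
  · intro i
    refine hB' i (f i) ?_
    intro j
    have := key i (i, 0) j
    simp only [M, XEF2_e, t, if_true] at this
    exact_mod_cast this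
  · intro i i' hne
    refine hA i' i (f i') ?_
    intro j
    have := key i' (i, 0) j
    simp only [M, XEF2_e, t, if_true, if_neg hne] at this
    refine dvd_trans ?_ this
    push_cast
    exact dvd_pow_self _ (by norm_num)
  · intro i
    refine hC i i (f i) ?_
    intro j
    have := key i (i, 1) j
    simp only [M, XEF2_e, t, if_true, one_ne_zero, if_false, pow_one] at this
    exact_mod_cast this
  · intro i
    have h := kE i 2 (by decide) (by decide)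
    exact hXIE (n i) (f i) (x (i, 2)) h.prime h.dvd h.ndvd

theorem XT2 (hXIN : XIN_stmt) (hXFA : XFA_stmt) (hXEF2 : XEF2_stmt) (hXE8 : XE8_stmt) : XT2_stmt := by
  intro l hl k n hn
  obtain ⟨N, c, r, s, p, p', hN, hpp, hlt, hprim, h⟩ := hXEF2 l hl k n hn
  refine ⟨N, c, p, p', hN, hpp, hlt, hprim, fun f hf => ?_⟩
  obtain ⟨hL, hE⟩ := h f hf
  refine ⟨fun i => hXE8 (n i) (f i) (hL.irr i), hE, ?_⟩
  intro μ a e npos inj pos lt inf hR
  exact ⟨hXIN l (Cvs.mk k n μ a e npos inj pos lt inf) f r s hl (fun i => (hn i).2.1) hR hL,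
    hXFA l (Cvs.mk k n μ a e npos inj pos lt inf) f r s hl (fun i => (hn i).2.1) hR hL⟩

end

end Pool.Agent.TEX
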