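import Pool.Agent.helper84.TEX.XPL
import Pool.Agent.helper84.TEX.XEF
import Pool.Agent.helper84.TEX.XT
import Pool.Agent.helper84.TEX.XT2
import Pool.Agent.helper68.TEX.XTR
import Pool.Agent.helper49.TEX.XE7
import Pool.Agent.helper56.TEX.XE3
import Pool.Agent.helper56.TEX.XFA
import Pool.Agent.helper56.TEX.XQK
import Pool.Agent.helper74.TEX.XIN
import Pool.Agent.helper76.TEX.X2T
import Pool.Agent.helper76.TEX.XE6
import Pool.Agent.helper76.TEX.XE8
import Pool.Agent.helper76.TEX.XIR
import Pool.Agent.helper76.TEX.XPB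
import Pool.Agent.helper76.TEX.XZL
import Pool.Agent.helper88.TEX.XE1
import Pool.Agent.helper88.TEX.XE2
import Pool.Agent.helper88.TEX.XIE
import Pool.Agent.helper88.TEX.XRT
import Pool.Agent.helper93.TEX.XE4
import Pool.Agent.helper93.TEX.XE5
import Pool.Agent.helper93.TEX.XE9
import Pool.Agent.helper93.TEX.XHA
import Pool.Agent.helper93.TEX.XHB

/-!
# Project TEX (MP_3703a7_ag, A+), block EX: assembly
-/

noncomputable section

set_option autoImplicit false

namespace Pool.Agent.TEX

theorem t_XPL : XPL_stmt := XPL (XQK XPB) XHA XHB XRT XZL (X2T XIR (XTR XPB))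

theorem t_XT : XT_stmt := XT (XIN t_XPL) (XFA t_XPL) (XEF XIE XE1 XE2 XE3 XE6 XE7 (XE9 XE4 XE5)) XE8

/-- the result with primitive roots (`PrimR` is the last condition of the final definition) -/
theorem t_XT2 : XT2_stmt := XT2 (XIN t_XPL) (XFA t_XPL) (XEF2 XIE XE1 XE2 XE3 XE6 XE7 (XE9 XE4 XE5)) XE8

end Pool.Agent.TEX
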