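import Pool.Agent.helper88.TN.Def

/-!
# A+ (MP_3703a7_ag), block EX: congruence classes of polynomials which satisfy `Indep`, `Sep` and the Eisenstein conditions

Rows `ta:X*`. File `Pool/Agent/<seat>/TEX/XX.lean`, `import Pool.Agent.helper84.TEX.Spec`, `namespace Pool.Agent.TEX`, the `open` lines of this
file, `theorem XX : XX_stmt` (or with other rows as hypotheses if the docstring says so). Auxiliary lemmas prefixed `XX_`.
No `sorry`, `native_decide`, `convert`, `congr!`, `private`, straight double quotes. Owner helper84.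

Notation: `pol f = x^(n+1) + ∑_k f_k x^k` (`k ≤ n`), `Om r = AlgebraicClosure ℚ_[r]`. METHOD. Let `r` be a prime number with `l ∣ r - 1`,
`f_i = x (x - r) ∏_(1 ≤ k < n_i) (x - k)` modulo `r^3` and `f_i' = ∏_(k ≤ n_i') (x - k)` modulo `r` for all `i' ≠ i`. By Hensel's lemma all
`f_i'` split over `ℤ_r` and `ζ_l ∈ ℤ_r`; under every embedding `ψ : Qb → Om r` the field `K` goes into `ℚ_r`, one pair of roots of `f_i`
has a difference of norm `1/r`, all other differences of roots of the same curve are units. As the Galois group is doubly transitive on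
the roots of `f_i` (Eisenstein: irreducible; `f_i = x g` modulo `s`, `g` irreducible: the stabiliser of one root is transitive on the
others) every pair is this pair for some `ψ`. So `z^l = ∏ (a_j - a_j')^(e_jj')` gives `l v(z) = e_jj'`.
-/

namespace Pool.Agent.TEX

open Pool.Agent.TC Pool.Agent.TN Polynomial

noncomputable section

/-! ## Definitions -/

/-- `x^(n+1) + ∑_k f_k x^k` -/
def pol {n : ℕ} (f : Fin (n + 1) → ℤ) : Polynomial ℤ := X ^ (n + 1) + ∑ k, C (f k) * X ^ (k : ℕ)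

/-- the `a_j` are roots of this polynomial -/
def Rts {n : ℕ} (f : Fin (n + 1) → ℤ) (a : Fin (n + 1) → Qb) : Prop :=
  ∀ j, a j ^ (n + 1) + ∑ k, (f k : Qb) * a j ^ (k : ℕ) = 0

/-- the algebraic closure of `ℚ_r` -/
abbrev Om (r : ℕ) [Fact r.Prime] : Type := AlgebraicClosure ℚ_[r]

/-- `f = ∏_(k ≤ n) (x - k)` modulo `r` -/
def LocA (r : ℕ) {n : ℕ} (f : Fin (n + 1) → ℤ) : Prop :=
  (pol f).map (Int.castRingHom (ZMod r)) = ∏ k : Fin (n + 1), (X - C ((k : ℕ) : ZMod r))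

/-- `f = x (x - r) ∏_(1 ≤ k < n) (x - k)` modulo `r^3` -/
def LocB (r : ℕ) {n : ℕ} (f : Fin (n + 1) → ℤ) : Prop :=
  (pol f).map (Int.castRingHom (ZMod (r ^ 3))) =
    X * (X - C ((r : ℕ) : ZMod (r ^ 3))) * ∏ k ∈ Finset.Ico 1 n, (X - C ((k : ℕ) : ZMod (r ^ 3)))

/-- `f = x g` modulo `s`, `g` irreducible -/
def LocC (s : ℕ) {n : ℕ} (f : Fin (n + 1) → ℤ) : Prop :=
  ∃ g : Polynomial (ZMod s), Irreducible g ∧ (pol f).map (Int.castRingHom (ZMod s)) = X * g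

/-- `f` is an Eisenstein polynomial at the prime `p`, `p = 1` modulo `l`, `p` is a primitive root modulo `n + 1` -/
structure EisP (l n : ℕ) (f : Fin (n + 1) → ℤ) (p : ℕ) : Prop where
  prime : p.Prime
  one : l ∣ p - 1
  prim : ∀ r : ℕ, 0 < r → (n + 1) ∣ p ^ r - 1 → n ≤ r
  dvd : ∀ k, (p : ℤ) ∣ f k
  ndvd : ¬ (p : ℤ) ^ 2 ∣ f 0

/-- the local conditions -/
structure Loc (l k : ℕ) (n : Fin k → ℕ) (f : ∀ i, Fin (n i + 1) → ℤ) (r s : Fin k → ℕ) : Prop where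
  rp : ∀ i, (r i).Prime
  sp : ∀ i, (s i).Prime
  rl : ∀ i, l ∣ r i - 1
  rn : ∀ i i', n i' + 1 ≤ r i
  B : ∀ i, LocB (r i) (f i)
  A : ∀ i i', i ≠ i' → LocA (r i) (f i')
  C : ∀ i, LocC (s i) (f i)
  irr : ∀ i, Irreducible ((pol (f i)).map (Int.castRingHom ℚ))

/-! ## Block 1: Galois groups and embeddings -/

/-- **XPB** (short). Pull back. Proof. Make `Om r` a `Qb`-algebra by `ψ` (`letI := ψ.toAlgebra`, `IsScalarTower ℚ Qb (Om r)` holds as there is only one map from `ℚ`);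
`Qb` is normal over `ℚ`; `σ = (τ.restrictScalars ℚ).restrictNormal Qb`, `AlgEquiv.restrictNormal_commutes`. (`Aut Qb` is `Qb ≃+* Qb`, `Aut.ap` its application.) -/
def XPB_stmt : Prop := ∀ (r : ℕ) [Fact r.Prime] (ψ : Qb →+* Om r) (τ : Om r ≃ₐ[ℚ_[r]] Om r),
  ∃ σ : Aut Qb, ∀ x, ψ (σ.ap x) = τ (ψ x)

/-- **XQK** (short-medium). `K` goes into `ℚ_r`. From XPB. Proof. Let `τ` be an automorphism of `Om r` over `ℚ_r`, `σ` as in XPB. `ψ(σ a_ij) = τ(ψ(a_ij)) = ψ(a_ij)`, so `σ` fixes the `a_ij` and all `s` with `s^l = 1`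
(`ψ` is injective), so `σ z = z` (`InK`) and `τ(ψ z) = ψ z`. `Om r` is Galois over `ℚ_r` (algebraic closure, characteristic 0), so `ψ z ∈ ℚ_r` (`InfiniteGalois.mem_bot_iff_fixed` or
`fixedField_bot`; or: the minimal polynomial of `ψ z` has only one root, `IsConjRoot`, and is separable). -/
def XQK_stmt : Prop := ∀ (l : ℕ) (D : Cvs l) (r : ℕ) [Fact r.Prime] (ψ : Qb →+* Om r),
  (∀ i j, ∃ y : ℚ_[r], algebraMap ℚ_[r] (Om r) y = ψ (D.a i j)) →
  (∀ s : Qb, s ^ l = 1 → ∃ y : ℚ_[r], algebraMap ℚ_[r] (Om r) y = ψ s) →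
  ∀ z, D.InK z → ∃ y : ℚ_[r], algebraMap ℚ_[r] (Om r) y = ψ z

/-- **XIR** (short). An irreducible polynomial: transitivity. Proof. `(pol f).map` is monic and irreducible and kills `a j` and `a j'`, so it is the minimal polynomial of both; `IsConjRoot`
(`isConjRoot_iff_exists_algEquiv` or `IsConjRoot.exists_algEquiv`, `Normal ℚ Qb`). -/
def XIR_stmt : Prop := ∀ (n : ℕ) (f : Fin (n + 1) → ℤ) (a : Fin (n + 1) → Qb), Rts f a →
  Irreducible ((pol f).map (Int.castRingHom ℚ)) → ∀ j j', ∃ σ : Aut Qb, σ.ap (a j) = a j'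

/-- **XIE** (short). Eisenstein's criterion. Proof. `Polynomial.IsEisensteinAt.irreducible` (ideal `(p)` of `ℤ`; `pol f` is monic of degree `n + 1`, coefficients `f k`), `Polynomial.Monic.irreducible_iff_irreducible_map_fraction_map`
(or `Monic.Int.irreducible_iff_irreducible_map_cast`). -/
def XIE_stmt : Prop := ∀ (n : ℕ) (f : Fin (n + 1) → ℤ) (p : ℕ), p.Prime → (∀ k, (p : ℤ) ∣ f k) → ¬ (p : ℤ) ^ 2 ∣ f 0 →
  Irreducible ((pol f).map (Int.castRingHom ℚ))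

/-- **XTR** (medium). The stabiliser of one root. From XPB. Proof. `ψ : Qb → Om s` any embedding (`IsAlgClosed.lift`). `F = pol f` over `ℤ_s`, monic of degree `n + 1`. `g` has degree `n ≥ 2` and is irreducible, so `g(0) ≠ 0`.
`F(0) = 0`, `F'(0) = g(0) ≠ 0` modulo `s`; `hensels_lemma`: `α ∈ ℤ_s`, `F(α) = 0`, `α = 0` modulo `s`. `F = (x - α) G`, `G` monic; modulo `s`: `x Ḡ = x g`, so `Ḡ = g` is irreducible, so `G` is irreducible over `ℤ_s`
(`Polynomial.Monic.irreducible_of_irreducible_map` for `ℤ_s → ZMod s`) and over `ℚ_s` (`Monic.irreducible_iff_irreducible_map_fraction_map`). The `ψ(a j)` are `n + 1` different roots of `F` in `Om s`, so they are all the roots and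
one of them, `ψ(a j₀)`, is `α`; the others are roots of `G`. For `j, j' ≠ j₀` there is `τ` with `τ(ψ(a j)) = ψ(a j')` (as in XIR over `ℚ_s`), `τ α = α`; XPB. -/
def XTR_stmt : Prop := ∀ (n : ℕ) (f : Fin (n + 1) → ℤ) (a : Fin (n + 1) → Qb) (s : ℕ), 2 ≤ n → s.Prime → LocC s f →
  Rts f a → Function.Injective a → ∃ j₀, ∀ j j', j ≠ j₀ → j' ≠ j₀ → ∃ σ : Aut Qb, σ.ap (a j₀) = a j₀ ∧ σ.ap (a j) = a j'

/-- **X2T** (short). Double transitivity. From XIR, XTR. Proof. Compositions and inverses of automorphisms permute the `a j` (they are all the roots of `pol f`). Take `σ₁` with `a j ↦ a j₀`, `σ₂` with `a u ↦ a j₀`; then `σ₁ a j' = a v`, `σ₂ a u' = a v'` with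
`v, v' ≠ j₀` (roots of `pol f` are of the form `a v`); `σ₃` fixes `a j₀`, maps `a v` to `a v'`; `σ₂⁻¹ σ₃ σ₁`. -/
def X2T_stmt : Prop := ∀ (n : ℕ) (f : Fin (n + 1) → ℤ) (a : Fin (n + 1) → Qb) (s : ℕ), 2 ≤ n → s.Prime → LocC s f →
  Rts f a → Function.Injective a → Irreducible ((pol f).map (Int.castRingHom ℚ)) →
  ∀ j j' u u', j ≠ j' → u ≠ u' → ∃ σ : Aut Qb, σ.ap (a j) = a u ∧ σ.ap (a j') = a u'

/-! ## Block 2: Hensel's lemma -/

/-- **XHA** (short-medium). Simple roots. Proof. `F = pol f` over `ℤ_r`. `F(k) = 0` and `F'(k) = ∏_(k' ≠ k) (k - k') ≠ 0` modulo `r` (`k, k' ≤ n < r`), so `‖F(k)‖ < 1 = ‖F'(k)‖²`; `hensels_lemma` gives `α_k` with `F(α_k) = 0`, `‖α_k - k‖ < 1`.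
`α_k - α_k' = k - k' ≠ 0` modulo `r`: norm 1. (`PadicInt.toZMod`, `PadicInt.norm_lt_one_iff_dvd`, ..) -/
def XHA_stmt : Prop := ∀ (n r : ℕ) [Fact r.Prime] (f : Fin (n + 1) → ℤ), n + 1 ≤ r → LocA r f →
  ∃ α : Fin (n + 1) → ℤ_[r], (∀ k, ((pol f).map (Int.castRingHom ℤ_[r])).eval (α k) = 0) ∧
    ∀ k k', k ≠ k' → ‖α k - α k'‖ = 1

/-- **XHB** (medium). A double root modulo `r`. Proof. `F = pol f` over `ℤ_r`; `F = X (X - r) ∏_(1 ≤ k < n) (X - k) + r^3 H`. At `0`: `‖F(0)‖ ≤ r^(-3)`, `F'(0) = -r ∏ (-k) + r^3 H'(0)`, norm `r^(-1)`; `hensels_lemma`: `α_0` with `‖α_0‖ < r^(-1)`.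
At `r`: `‖F(r)‖ ≤ r^(-3)`, `F'(r) = r ∏ (r - k) + r^3 H'(r)`, norm `r^(-1)`: `‖α_1 - r‖ < r^(-1)`. So `‖α_0 - α_1‖ = ‖r‖ = r^(-1)`. At `k` (`1 ≤ k < n`): `‖F(k)‖ < 1`, `F'(k) = k (k - r) ∏_(k' ≠ k) (k - k') ≠ 0` modulo `r`: `α_(k+1)`, `α_(k+1) = k` modulo `r`.
(Norms in `ℤ_r` are `≤ 1`, ultrametric.) `1 : Fin (n + 1)` is `1` as `n ≥ 2`. -/
def XHB_stmt : Prop := ∀ (n r : ℕ) [Fact r.Prime] (f : Fin (n + 1) → ℤ), 2 ≤ n → n + 1 ≤ r → LocB r f →
  ∃ α : Fin (n + 1) → ℤ_[r], (∀ k, ((pol f).map (Int.castRingHom ℤ_[r])).eval (α k) = 0) ∧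
    ‖α 0 - α 1‖ = (r : ℝ)⁻¹ ∧ ∀ k k', k < k' → ¬ (k = 0 ∧ k' = 1) → ‖α k - α k'‖ = 1

/-- **XRT** (short-medium). The roots in `Om r`. Proof. `F = pol f` over `Om r` is monic of degree `n + 1` and has the `n + 1` different roots `α_k`; so every root is an `α_k` (`Polynomial.card_roots`, or: `∏ (X - α_k)` divides `F` and has the same
degree). `ψ(a j)` is a root: `ψ(a j) = α_(π j)`; `π` is injective as `ψ ∘ a` is. -/
def XRT_stmt : Prop := ∀ (n r : ℕ) [Fact r.Prime] (f : Fin (n + 1) → ℤ) (α : Fin (n + 1) → ℤ_[r]) (a : Fin (n + 1) → Qb) (ψ : Qb →+* Om r),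
  (∀ k, ((pol f).map (Int.castRingHom ℤ_[r])).eval (α k) = 0) → Function.Injective α → Rts f a → Function.Injective a →
  ∃ π : Equiv.Perm (Fin (n + 1)), ∀ j, ψ (a j) = algebraMap ℚ_[r] (Om r) (α (π j) : ℚ_[r])

/-- **XZL** (short-medium). The `l`-th roots of unity. Proof. `(ZMod r)ˣ` is cyclic of order `r - 1`, so `X^l - 1` has `l` different roots `c` in `ZMod r`; derivative `l c^(l-1) ≠ 0` (`l ≤ r - 1`); `hensels_lemma` for `X^l - 1` gives `l` different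
roots in `ℤ_r`. `X^l - 1` has at most `l` roots in `Om r`, so `x` is one of these. (If the library has Teichmüller representatives or primitive roots in `ℤ_p` use them.) -/
def XZL_stmt : Prop := ∀ (l r : ℕ) [Fact r.Prime], l.Prime → l ∣ r - 1 → ∀ x : Om r, x ^ l = 1 →
  ∃ y : ℚ_[r], algebraMap ℚ_[r] (Om r) y = x

/-! ## Block 3: the conditions `Indep` and `Sep` -/

/-- **XPL** (medium). A place for every pair. From XQK, XHA, XHB, XRT, XZL, X2T. Proof. `r = r i₀`. `ψ₀ : Qb → Om r` any embedding (`IsAlgClosed.lift`). XHA for `i ≠ i₀` and XHB for `i₀` give `α_i`; XRT gives `π_i` with `ψ₀(a_ij) = α_i(π_i j)`.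
Let `v, v'` be the indices with `π_(i₀) v = 0`, `π_(i₀) v' = 1`. X2T: `σ` with `σ a_(i₀ u) = a_(i₀ v)`, `σ a_(i₀ u') = a_(i₀ v')`; `ψ = ψ₀ ∘ σ`. XRT again for `ψ` (same `α_i`): `ψ(a_ij) = α_i(ρ_i j)`, `ρ_(i₀) u = 0`, `ρ_(i₀) u' = 1` (`α` injective, `algebraMap` injective).
`y i j = α_i(ρ_i j)`. The norms: `‖x‖` in `ℤ_r` and in `ℚ_r` agree; `‖y i j - y i j'‖` is symmetric. The last part is XQK with XZL (`ψ(s)^l = 1`). -/
def XPL_stmt : Prop := ∀ (l : ℕ) (D : Cvs l) (f : ∀ i, Fin (D.n i + 1) → ℤ) (r s : Fin D.k → ℕ), l.Prime →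
  (∀ i, 2 ≤ D.n i) → (∀ i, Rts (f i) (D.a i)) → Loc l D.k D.n f r s →
  ∀ (i₀ : Fin D.k) (u u' : Fin (D.n i₀ + 1)), u < u' → ∀ [Fact (r i₀).Prime],
  ∃ (ψ : Qb →+* Om (r i₀)) (y : ∀ i, Fin (D.n i + 1) → ℚ_[r i₀]),
    (∀ i j, ψ (D.a i j) = algebraMap ℚ_[r i₀] (Om (r i₀)) (y i j)) ∧
    (∀ i, i ≠ i₀ → ∀ j j', j < j' → ‖y i j - y i j'‖ = 1) ∧
    (∀ j j', j < j' → ¬ (j = u ∧ j' = u') → ‖y i₀ j - y i₀ j'‖ = 1) ∧
    ‖y i₀ u - y i₀ u'‖ = ((r i₀ : ℕ) : ℝ)⁻¹ ∧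
    ∀ z, D.InK z → ∃ w : ℚ_[r i₀], algebraMap ℚ_[r i₀] (Om (r i₀)) w = ψ z

/-- **XIN** (short-medium). `Indep`. From XPL. Proof. `z^l = prd i e`, `j < j'`. XPL with `i₀ = i`, `(u, u') = (j, j')`: `ψ z = w`, `w^l = ∏∏ (y_j - y_j')^(e_jj')` in `ℚ_r` (apply `ψ`, `algebraMap` is injective), norms: `‖w‖^l = ((r)⁻¹)^(e j j')`
(all other factors have norm 1). `w ≠ 0`; `‖w‖ = r^(-v)` (`Padic.norm_eq_zpow_neg_valuation`), so `l v = e j j'`. -/
def XIN_stmt : Prop := ∀ (l : ℕ) (D : Cvs l) (f : ∀ i, Fin (D.n i + 1) → ℤ) (r s : Fin D.k → ℕ), l.Prime →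
  (∀ i, 2 ≤ D.n i) → (∀ i, Rts (f i) (D.a i)) → Loc l D.k D.n f r s → D.Indep

/-- **XFA** (short-medium). `Sep`. From XPL. Proof. `Far i i'` for `i ≠ i'`: `e 0 1 = 1`, `e 0 2 = -1`, all others `0` (`Deg0`: the sum is `0`). If `prd i e = z^l prd i' e'`, `InK z`: XPL with `i₀ = i`, `(u, u') = (0, 1)`: norms in `ℚ_r`: `r⁻¹ = ‖w‖^l` (all other
differences have norm 1), so `1 = l v`, contradiction with `l ≥ 2`. -/
def XFA_stmt : Prop := ∀ (l : ℕ) (D : Cvs l) (f : ∀ i, Fin (D.n i + 1) → ℤ) (r s : Fin D.k → ℕ), l.Prime →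
  (∀ i, 2 ≤ D.n i) → (∀ i, Rts (f i) (D.a i)) → Loc l D.k D.n f r s → D.Sep

/-! ## Block 4: existence -/

/-- **XE1** (short). Distinct representatives. Proof. Induction on the finset `s` (statement for the elements of `s`), or enumerate `ι` by `Fin N` and choose `x_(i+1) > x_i, B`. -/
def XE1_stmt : Prop := ∀ (ι : Type) [Fintype ι] (A : ι → Set ℕ) (B : ℕ), (∀ i, (A i).Infinite) →
  ∃ x : ι → ℕ, Function.Injective x ∧ ∀ i, x i ∈ A i ∧ B ≤ x i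

/-- **XE2** (short-medium). Prime numbers `= 1` modulo `l` which are primitive roots modulo `m`. Proof. Let `g` be a generator of `(ZMod m)ˣ` (cyclic of order `m - 1`). Chinese remainder theorem: `a` with `a = 1` modulo `l`, `a = g` modulo `m`, a unit modulo `l m`. Dirichlet:
`Nat.setOf_prime_and_eq_mod_infinite` (or `Nat.infinite_setOf_prime_and_eq_mod`). `m ∣ p^r - 1` gives `g^r = 1`, so `m - 1 ∣ r`. -/
def XE2_stmt : Prop := ∀ l m : ℕ, l.Prime → m.Prime → l ≠ m →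
  {p : ℕ | p.Prime ∧ l ∣ p - 1 ∧ ∀ r : ℕ, 0 < r → m ∣ p ^ r - 1 → m - 1 ≤ r}.Infinite

/-- **XE3** (short). Prime numbers `= 1` modulo `l`. `Nat.infinite_setOf_prime_modEq_one` or Dirichlet. -/
def XE3_stmt : Prop := ∀ l : ℕ, l.Prime → {p : ℕ | p.Prime ∧ l ∣ p - 1}.Infinite

/-- **XE4** (short). Irreducible polynomials of every degree over `𝔽_s`. Proof. `GaloisField s n`: finite extension of degree `n`, separable: primitive element `θ` (`Field.exists_primitive_element`), `minpoly (ZMod s) θ` is monic, irreducible, of degree `n`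
(`Field.primitive_element_iff_minpoly_natDegree_eq`, `GaloisField.finrank`). -/
def XE4_stmt : Prop := ∀ s n : ℕ, s.Prime → 0 < n → ∃ g : Polynomial (ZMod s), g.Monic ∧ Irreducible g ∧ g.natDegree = n

/-- **XE5** (short). Lifting coefficients, and congruences. Proof. (1) `h = X^(n+1) + ∑_(k ≤ n) C (h.coeff k) X^k` (`Polynomial.Monic.as_sum`, `Finset.sum_range`), lift the coefficients to `ℤ` (`ZMod.intCast_surjective`). (2) The coefficients have the same images. -/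
def XE5_stmt : Prop :=
  (∀ (n M : ℕ) (h : Polynomial (ZMod M)), h.Monic → h.natDegree = n + 1 →
    ∃ f : Fin (n + 1) → ℤ, (pol f).map (Int.castRingHom (ZMod M)) = h) ∧
  ∀ (n M : ℕ) (f f' : Fin (n + 1) → ℤ), (∀ j, (M : ℤ) ∣ f j - f' j) →
    (pol f).map (Int.castRingHom (ZMod M)) = (pol f').map (Int.castRingHom (ZMod M))

/-- **XE6** (short). Chinese remainder theorem for vectors. Proof. For every `j`: `Nat.chineseRemainderOfFinset` (or `ZMod.prodEquivPi`, or `Ideal.quotientInfRingEquivPiQuotient`) for `t i j` modulo `M i` (replace `t i j` by its residue `≥ 0`). -/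
def XE6_stmt : Prop := ∀ (ι : Type) [Fintype ι] (m : ℕ) (M : ι → ℕ) (t : ι → Fin m → ℤ), (∀ i, 0 < M i) →
  (∀ i i', i ≠ i' → Nat.Coprime (M i) (M i')) → ∃ c : Fin m → ℤ, ∀ i j, (M i : ℤ) ∣ c j - t i j

/-- **XE7** (short). Eisenstein polynomials are a residue class modulo `p^2`. Proof. `f 0 = p` modulo `p^2`, `f k = 0` modulo `p^2` for `k ≠ 0`. -/
def XE7_stmt : Prop := ∀ (n p : ℕ) (f : Fin (n + 1) → ℤ), p.Prime →
  (∀ k, ((p ^ 2 : ℕ) : ℤ) ∣ f k - (if k = 0 then (p : ℤ) else 0)) → (∀ k, (p : ℤ) ∣ f k) ∧ ¬ (p : ℤ) ^ 2 ∣ f 0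

/-- **XE8** (short). Enumeration of the roots. Proof. `F = pol f` over `ℚ` is irreducible, monic of degree `n + 1`, so separable; `F` has exactly `n + 1` roots in `Qb` (`Polynomial.card_rootSet_eq_natDegree`, `IsAlgClosed.splits`); enumerate them. -/
def XE8_stmt : Prop := ∀ (n : ℕ) (f : Fin (n + 1) → ℤ), Irreducible ((pol f).map (Int.castRingHom ℚ)) →
  ∃ a : Fin (n + 1) → Qb, Function.Injective a ∧ Rts f a

/-- **XE9** (short). The local polynomials are monic of degree `n + 1`, so they are given by residue classes. From XE4, XE5. Proof. XE5 (1) for `∏_(k ≤ n) (X - k)` modulo `r`; for `X (X - r) ∏_(1 ≤ k < n) (X - k)` modulo `r^3` (`n ≥ 1`; `ZMod (r^3)` is nontrivial; monic, natDegree of a product of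
monic polynomials); for `X g`, `g` of XE4 of degree `n ≥ 1`. If `M ∣ f j - t j` for all `j` then `pol f` and `pol t` are the same modulo `M` (XE5 (2)). -/
def XE9_stmt : Prop := ∀ n r s : ℕ, 1 ≤ n → r.Prime → s.Prime →
  (∃ t : Fin (n + 1) → ℤ, ∀ f : Fin (n + 1) → ℤ, (∀ j, (r : ℤ) ∣ f j - t j) → LocA r f) ∧
  (∃ t : Fin (n + 1) → ℤ, ∀ f : Fin (n + 1) → ℤ, (∀ j, ((r ^ 3 : ℕ) : ℤ) ∣ f j - t j) → LocB r f) ∧
  ∃ t : Fin (n + 1) → ℤ, ∀ f : Fin (n + 1) → ℤ, (∀ j, (s : ℤ) ∣ f j - t j) → LocC s f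

/-- **XEF** (medium). Existence of the classes. From XIE, XE1, XE2, XE3, XE6, XE7, XE9. Proof. XE1 with `ι = Fin k × Fin 4` gives different primes `r_i` (`l ∣ r_i - 1`, XE3), `s_i` (any prime), `p_i`, `p'_i` (XE2 with `m = n_i + 1`), all `≥ B = 1 + ∑ (n_i + 1)`. The moduli:
`ι' = Fin k × Fin 4`: `r_i^3`, `s_i`, `p_i^2`, `p'_i^2`, pairwise coprime. `N` = their product. For the curve `i` the prescribed vectors (XE9): modulo `r_i^3` type B; modulo `r_i'^3`, `i' ≠ i`: a lift of type A (LocA modulo `r_i'`, as `r_i' ∣ r_i'^3`); modulo `s_i` type C; modulo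
`s_i'`, `i' ≠ i`: anything; modulo `p_i^2`, `p'_i^2`: `x^(n+1) + p` (XE7); modulo `p_i'^2`, `p'_i'^2`, `i' ≠ i`: anything. XE6: `c_i`. If `N ∣ f_ij - c_ij` then all congruences hold. `irr` by XIE with `p_i`. -/
def XEF_stmt : Prop := ∀ (l : ℕ), l.Prime → ∀ (k : ℕ) (n : Fin k → ℕ), (∀ i, (n i + 1).Prime ∧ 2 ≤ n i ∧ n i + 1 ≠ l) →
  ∃ (N : ℕ) (c : ∀ i, Fin (n i + 1) → ℤ) (r s p p' : Fin k → ℕ), 0 < N ∧ (∀ i, p i ≠ p' i) ∧
    ∀ f : ∀ i, Fin (n i + 1) → ℤ, (∀ i j, (N : ℤ) ∣ f i j - c i j) →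
      Loc l k n f r s ∧ ∀ i, EisP l (n i) (f i) (p i) ∧ EisP l (n i) (f i) (p' i)

/-- **XT** (short). The result of the block. From XIN, XFA, XEF, XE8. -/
def XT_stmt : Prop := ∀ (l : ℕ), l.Prime → ∀ (k : ℕ) (n : Fin k → ℕ), (∀ i, (n i + 1).Prime ∧ 2 ≤ n i ∧ n i + 1 ≠ l) →
  ∃ (N : ℕ) (c : ∀ i, Fin (n i + 1) → ℤ) (p p' : Fin k → ℕ), 0 < N ∧ (∀ i, p i ≠ p' i) ∧
    ∀ f : ∀ i, Fin (n i + 1) → ℤ, (∀ i j, (N : ℤ) ∣ f i j - c i j) →
      (∀ i, ∃ a : Fin (n i + 1) → Qb, Function.Injective a ∧ Rts (f i) a) ∧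
      (∀ i, EisP l (n i) (f i) (p i) ∧ EisP l (n i) (f i) (p' i)) ∧
      ∀ (μ : ∀ i, Fin (n i + 1) → ℕ) (a : ∀ i, Fin (n i + 1) → Qb) (e : Fin k → ℕ) (npos : ∀ i, 0 < n i)
        (inj : ∀ i, Function.Injective (a i)) (pos : ∀ i j, 0 < μ i j) (lt : ∀ i j, μ i j < l)
        (inf : ∀ i, ¬ l ∣ ∑ j, μ i j), (∀ i, Rts (f i) (a i)) →
        (Cvs.mk k n μ a e npos inj pos lt inf).Indep ∧ (Cvs.mk k n μ a e npos inj pos lt inf).Sep

end

end Pool.Agent.TEX
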