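import Pool.Agent.helper84.TEX.Spec

namespace Pool.Agent.TEX

open Pool.Agent.TC Pool.Agent.TN Polynomial

noncomputable section

theorem XPL_alpha (hXHA : XHA_stmt) (hXHB : XHB_stmt) (l : ℕ) (D : Cvs l) (f : ∀ i, Fin (D.n i + 1) → ℤ)
    (r s : Fin D.k → ℕ) (hn : ∀ i, 2 ≤ D.n i) (hL : Loc l D.k D.n f r s) (i₀ : Fin D.k) [Fact (r i₀).Prime] (i : Fin D.k) :
    ∃ α : Fin (D.n i + 1) → ℤ_[r i₀],
      (∀ k, ((pol (f i)).map (Int.castRingHom ℤ_[r i₀])).eval (α k) = 0) ∧ Function.Injective α ∧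
      (i ≠ i₀ → ∀ k k', k ≠ k' → ‖α k - α k'‖ = 1) ∧
      (i = i₀ → ‖α 0 - α 1‖ = ((r i₀ : ℕ) : ℝ)⁻¹ ∧ ∀ k k', k < k' → ¬ (k = 0 ∧ k' = 1) → ‖α k - α k'‖ = 1) := by
  by_cases h : i = i₀
  · subst h
    obtain ⟨α, h1, h2, h3⟩ := hXHB (D.n i) (r i) (f i) (hn i) (hL.rn i i) (hL.B i)
    have hr : (0 : ℝ) < ((r i : ℕ) : ℝ)⁻¹ := inv_pos.mpr (by exact_mod_cast (hL.rp i).pos)
    have key : ∀ k k', k < k' → α k ≠ α k' := by
      intro k k' hk e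
      by_cases h0 : k = 0 ∧ k' = 1
      · obtain ⟨rfl, rfl⟩ := h0
        rw [e, sub_self, norm_zero] at h2
        linarith
      · have := h3 k k' hk h0
        rw [e, sub_self, norm_zero] at this
        norm_num at this
    refine ⟨α, h1, ?_, fun h => absurd rfl h, fun _ => ⟨h2, h3⟩⟩
    intro k k' e
    by_contra hne
    rcases lt_or_gt_of_ne hne with hlt | hlt
    · exact key k k' hlt e
    · exact key k' k hlt e.symm
  · obtain ⟨α, h1, h2⟩ := hXHA (D.n i) (r i₀) (f i) (hL.rn i₀ i) (hL.A i₀ i (fun e => h e.symm))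
    refine ⟨α, h1, ?_, fun _ => h2, fun e => absurd e h⟩
    intro k k' e
    by_contra hne
    have := h2 k k' hne
    rw [e, sub_self, norm_zero] at this
    norm_num at this

theorem XPL (hXQK : XQK_stmt) (hXHA : XHA_stmt) (hXHB : XHB_stmt) (hXRT : XRT_stmt) (hXZL : XZL_stmt)
    (hX2T : X2T_stmt) : XPL_stmt := by
  intro l D f r s hl hn hR hL i₀ u u' huu' hF
  choose α h1 h2 h3 h4 using XPL_alpha hXHA hXHB l D f r s hn hL i₀
  have hA : @Algebra.IsAlgebraic ℚ Qb _ _ DivisionRing.toRatAlgebra := AlgebraicClosure.isAlgebraic ℚ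
  have ψ₀ : Qb →+* Om (r i₀) := ((IsAlgClosed.lift : Qb →ₐ[ℚ] Om (r i₀)) : Qb →+* Om (r i₀))
  obtain ⟨π, hπ⟩ := hXRT (D.n i₀) (r i₀) (f i₀) (α i₀) (D.a i₀) ψ₀ (h1 i₀) (h2 i₀) (hR i₀) (D.inj i₀)
  have h01 : (0 : Fin (D.n i₀ + 1)) ≠ 1 := by
    intro e
    have e1 := congrArg Fin.val e
    rw [Fin.val_zero, Fin.val_one', Nat.mod_eq_of_lt (by have := hn i₀; omega)] at e1
    omega
  have hvv : π.symm 0 ≠ π.symm 1 := fun e => h01 (π.symm.injective e)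
  obtain ⟨σ, hσ1, hσ2⟩ := hX2T (D.n i₀) (f i₀) (D.a i₀) (s i₀) (hn i₀) (hL.sp i₀) (hL.C i₀) (hR i₀) (D.inj i₀)
    (hL.irr i₀) u u' (π.symm 0) (π.symm 1) huu'.ne hvv
  let σ' : Qb ≃+* Qb := σ
  let ψ : Qb →+* Om (r i₀) := ψ₀.comp σ'.toRingHom
  have hψ : ∀ x, ψ x = ψ₀ (σ.ap x) := fun _ => rfl
  choose ρ hρ using fun i => hXRT (D.n i) (r i₀) (f i) (α i) (D.a i) ψ (h1 i) (h2 i) (hR i) (D.inj i)
  have hinj : Function.Injective (algebraMap ℚ_[r i₀] (Om (r i₀))) := (algebraMap ℚ_[r i₀] (Om (r i₀))).injective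
  have hu : ρ i₀ u = 0 := by
    apply h2 i₀
    have e : algebraMap ℚ_[r i₀] (Om (r i₀)) (α i₀ (ρ i₀ u) : ℚ_[r i₀]) =
        algebraMap ℚ_[r i₀] (Om (r i₀)) (α i₀ 0 : ℚ_[r i₀]) := by
      rw [← hρ i₀ u, hψ, hσ1, hπ, Equiv.apply_symm_apply]
    exact PadicInt.ext (hinj e)
  have hu' : ρ i₀ u' = 1 := by
    apply h2 i₀
    have e : algebraMap ℚ_[r i₀] (Om (r i₀)) (α i₀ (ρ i₀ u') : ℚ_[r i₀]) =
        algebraMap ℚ_[r i₀] (Om (r i₀)) (α i₀ 1 : ℚ_[r i₀]) := by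
      rw [← hρ i₀ u', hψ, hσ2, hπ, Equiv.apply_symm_apply]
    exact PadicInt.ext (hinj e)
  have hnorm : ∀ i k k', ‖(α i k : ℚ_[r i₀]) - (α i k' : ℚ_[r i₀])‖ = ‖α i k - α i k'‖ := by
    intro i k k'
    rw [PadicInt.norm_def, PadicInt.coe_sub]
  refine ⟨ψ, fun i j => (α i (ρ i j) : ℚ_[r i₀]), hρ, ?_, ?_, ?_, ?_⟩
  · intro i hi j j' hj
    rw [hnorm]
    exact h3 i hi _ _ (fun e => hj.ne ((ρ i).injective e))
  · intro j j' hj hne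
    rw [hnorm]
    have hne' : ρ i₀ j ≠ ρ i₀ j' := fun e => hj.ne ((ρ i₀).injective e)
    rcases lt_or_gt_of_ne hne' with hlt | hlt
    · refine (h4 i₀ rfl).2 _ _ hlt ?_
      rintro ⟨e1, e2⟩
      exact hne ⟨(ρ i₀).injective (e1.trans hu.symm), (ρ i₀).injective (e2.trans hu'.symm)⟩
    · rw [norm_sub_rev]
      refine (h4 i₀ rfl).2 _ _ hlt ?_
      rintro ⟨e1, e2⟩
      have f1 : j' = u := (ρ i₀).injective (e1.trans hu.symm)
      have f2 : j = u' := (ρ i₀).injective (e2.trans hu'.symm)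
      rw [f1, f2] at hj
      exact absurd huu' (not_lt.mpr hj.le)
  · rw [hnorm, hu, hu']
    exact (h4 i₀ rfl).1
  · exact hXQK l D (r i₀) ψ (fun i j => ⟨_, (hρ i j).symm⟩)
      (fun t ht => hXZL l (r i₀) hl (hL.rl i₀) (ψ t) (by rw [← map_pow, ht, map_one]))

end

end Pool.Agent.TEX
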